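import Mathlib

/-!
Two generator multisets on `𝔽₂³` with gcd of multiplicities `1` and equal Laplacian spectra
(with multiplicities) whose sandpile groups are not isomorphic.
-/

namespace Pool.Agent.Results.MP_f0ff61_co.SameSpectrum

open Matrix

/-- The space `𝔽₂ʳ`. -/
abbrev V (r : ℕ) := Fin r → ZMod 2

/-- A generator multiset: nonzero vectors that span `𝔽₂ʳ`. -/
def IsGenerator {r : ℕ} (M : Multiset (V r)) : Prop :=
  (∀ v ∈ M, v ≠ 0) ∧ Submodule.span (ZMod 2) {v | v ∈ M} = ⊤

/-- The gcd of the positive multiplicities. -/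
def gcdMult {r : ℕ} (M : Multiset (V r)) : ℕ := M.toFinset.gcd fun v => M.count v

/-- The Laplacian matrix of the Cayley graph: `n = |M|` on the diagonal and minus the number of
`v` in `M` with `u + v = w` at the entry `(u, w)`, `u ≠ w`. -/
def lap {r : ℕ} (M : Multiset (V r)) : Matrix (V r) (V r) ℤ :=
  Matrix.of fun u w => if u = w then (M.card : ℤ) else -((M.countP fun v => u + v = w : ℕ) : ℤ)

/-- The cokernel of the Laplacian. -/
abbrev Coker {r : ℕ} (M : Multiset (V r)) := (V r → ℤ) ⧸ LinearMap.range (lap M).mulVecLin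

/-- The sandpile group: the torsion subgroup of the cokernel of the Laplacian. -/
abbrev K {r : ℕ} (M : Multiset (V r)) := Submodule.torsion ℤ (Coker M)

/-- The eigenvalue `λ_u = 2 #{v ∈ M : u · v = 1}`. -/
def eig {r : ℕ} (M : Multiset (V r)) (u : V r) : ℕ := 2 * M.countP fun v => u ⬝ᵥ v = 1

/-- The action of the Laplacian. -/
theorem lap_mulVec {r : ℕ} (M : Multiset (V r)) (hM : ∀ v ∈ M, v ≠ 0) (y : V r → ℤ) (u : V r) :
    ((lap M) *ᵥ y) u = (M.map fun v => y u - y (u + v)).sum := by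
  have h1 : ∀ w, lap M u w = (if u = w then (M.card : ℤ) else 0) -
      ((M.countP fun v => u + v = w : ℕ) : ℤ) := by
    intro w
    simp only [lap, Matrix.of_apply]
    split_ifs with h
    · subst h
      have : (M.countP fun v => u + v = u) = 0 := by
        rw [Multiset.countP_eq_zero]
        intro v hv h
        exact hM v hv (by simpa using h)
      rw [this]; simp
    · simp
  simp only [mulVec, dotProduct, h1]
  clear h1 hM
  induction M using Multiset.induction_on with
  | empty => simp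
  | cons v M ih =>
    rw [Multiset.map_cons, Multiset.sum_cons, ← ih]
    have h2 : y u - y (u + v) = ∑ w, ((if u = w then (1 : ℤ) else 0) -
        (if u + v = w then (1 : ℤ) else 0)) * y w := by
      simp only [sub_mul, Finset.sum_sub_distrib, ite_mul, one_mul, zero_mul,
        Finset.sum_ite_eq, Finset.mem_univ, if_true]
    rw [h2, ← Finset.sum_add_distrib]
    refine Finset.sum_congr rfl fun w _ => ?_
    rw [Multiset.card_cons, Multiset.countP_cons]
    push_cast
    split_ifs <;> ring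

/-- The points of `𝔽₂³`. -/
def P : Fin 8 → V 3 :=
  ![![0, 0, 0], ![1, 0, 0], ![0, 1, 0], ![1, 1, 0], ![0, 0, 1], ![1, 0, 1], ![0, 1, 1],
    ![1, 1, 1]]

/-- The first multiset. -/
def M₁ : Multiset (V 3) := {P 2, P 3, P 3, P 4, P 5, P 5, P 6, P 7, P 7}

/-- The second multiset. -/
def M₂ : Multiset (V 3) := {P 1, P 2, P 3, P 4, P 5, P 6, P 7, P 7, P 7}

theorem P_surj : ∀ u : V 3, ∃ i, u = P i := by decide

theorem P_inj : ∀ i j, P i = P j → i = j := by decide

/-- The addition table of the indices. -/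
def ad (i j : Fin 8) : Fin 8 := ⟨(i : ℕ) ^^^ (j : ℕ) , by revert i j; decide⟩

theorem P_add : ∀ i j, P i + P j = P (ad i j) := by decide

theorem tab : ∀ i j : Fin 8, ad i j = (![![0, 1, 2, 3, 4, 5, 6, 7], ![1, 0, 3, 2, 5, 4, 7, 6],
    ![2, 3, 0, 1, 6, 7, 4, 5], ![3, 2, 1, 0, 7, 6, 5, 4], ![4, 5, 6, 7, 0, 1, 2, 3],
    ![5, 4, 7, 6, 1, 0, 3, 2], ![6, 7, 4, 5, 2, 3, 0, 1], ![7, 6, 5, 4, 3, 2, 1, 0]] :
      Fin 8 → Fin 8 → Fin 8) i j := by decide

theorem M₁_ne : ∀ v ∈ M₁, v ≠ 0 := by decide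

theorem M₂_ne : ∀ v ∈ M₂, v ≠ 0 := by decide

theorem lap₁ (y : V 3 → ℤ) (i : Fin 8) : ((lap M₁) *ᵥ y) (P i) =
    9 * y (P i) - y (P (ad i 2)) - 2 * y (P (ad i 3)) - y (P (ad i 4)) - 2 * y (P (ad i 5))
      - y (P (ad i 6)) - 2 * y (P (ad i 7)) := by
  rw [lap_mulVec M₁ M₁_ne]
  simp only [M₁, Multiset.insert_eq_cons, Multiset.map_cons, Multiset.sum_cons,
    Multiset.map_singleton, Multiset.sum_singleton, P_add]
  ring

theorem lap₂ (y : V 3 → ℤ) (i : Fin 8) : ((lap M₂) *ᵥ y) (P i) =
    9 * y (P i) - y (P (ad i 1)) - y (P (ad i 2)) - y (P (ad i 3)) - y (P (ad i 4))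
      - y (P (ad i 5)) - y (P (ad i 6)) - 3 * y (P (ad i 7)) := by
  rw [lap_mulVec M₂ M₂_ne]
  simp only [M₂, Multiset.insert_eq_cons, Multiset.map_cons, Multiset.sum_cons,
    Multiset.map_singleton, Multiset.sum_singleton, P_add]
  ring

/-- The `2`-torsion elements of the sandpile group of `M₁` inject into `𝔽₂⁵`. -/
theorem upper : ∃ f : {k : K M₁ // k + k = 0} → (Fin 5 → ZMod 2), Function.Injective f := by
  have hex : ∀ k : {k : K M₁ // k + k = 0}, ∃ x y : V 3 → ℤ,
      (Submodule.Quotient.mk x : Coker M₁) = k.1.1 ∧ (lap M₁) *ᵥ y = x + x := by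
    intro k
    obtain ⟨x, hx⟩ := Submodule.Quotient.mk_surjective _ k.1.1
    have h1 : (Submodule.Quotient.mk (x + x) : Coker M₁) = 0 := by
      rw [Submodule.Quotient.mk_add, hx]
      have := congrArg Subtype.val k.2
      exact this
    rw [Submodule.Quotient.mk_eq_zero] at h1
    obtain ⟨y, hy⟩ := h1
    exact ⟨x, y, hx, hy⟩
  choose x y hx hy using hex
  refine ⟨fun k => ![(y k (P 1) - y k (P 0) : ℤ), (y k (P 2) - y k (P 0) : ℤ),
    (y k (P 3) - y k (P 0) : ℤ), (y k (P 4) - y k (P 0) : ℤ), (y k (P 5) - y k (P 0) : ℤ)], ?_⟩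
  intro k k' h
  have c : ∀ {m m' : ℤ}, ((m : ℤ) : ZMod 2) = ((m' : ℤ) : ZMod 2) → ∃ z, m - m' = 2 * z := by
    intro m m' hmm
    have := (ZMod.intCast_eq_intCast_iff_dvd_sub m' m 2).1 hmm.symm
    obtain ⟨z, hz⟩ := this
    exact ⟨z, by push_cast at hz; linarith⟩
  obtain ⟨z1, h1⟩ := c (congrFun h 0)
  obtain ⟨z2, h2⟩ := c (congrFun h 1)
  obtain ⟨z3, h3⟩ := c (congrFun h 2)
  obtain ⟨z4, h4⟩ := c (congrFun h 3)
  obtain ⟨z5, h5⟩ := c (congrFun h 4)
  have e0 := congrFun (hy k) (P 0)
  have e1 := congrFun (hy k) (P 1)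
  have e0' := congrFun (hy k') (P 0)
  have e1' := congrFun (hy k') (P 1)
  rw [lap₁] at e0 e1 e0' e1'
  simp only [Pi.add_apply] at e0 e1 e0' e1'
  have t02 : ad 0 2 = 2 := by decide
  have t03 : ad 0 3 = 3 := by decide
  have t04 : ad 0 4 = 4 := by decide
  have t05 : ad 0 5 = 5 := by decide
  have t06 : ad 0 6 = 6 := by decide
  have t07 : ad 0 7 = 7 := by decide
  have t12 : ad 1 2 = 3 := by decide
  have t13 : ad 1 3 = 2 := by decide
  have t14 : ad 1 4 = 5 := by decide
  have t15 : ad 1 5 = 4 := by decide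
  have t16 : ad 1 6 = 7 := by decide
  have t17 : ad 1 7 = 6 := by decide
  rw [t02, t03, t04, t05, t06, t07] at e0 e0'
  rw [t12, t13, t14, t15, t16, t17] at e1 e1'
  -- all coordinates of `y k - y k'` agree modulo two
  obtain ⟨z6, h6⟩ : ∃ z, (y k (P 6) - y k (P 0)) - (y k' (P 6) - y k' (P 0)) = 2 * z := by
    refine ⟨((y k (P 6) - y k (P 0)) - (y k' (P 6) - y k' (P 0))) / 2, ?_⟩
    omega
  obtain ⟨z7, h7⟩ : ∃ z, (y k (P 7) - y k (P 0)) - (y k' (P 7) - y k' (P 0)) = 2 * z := by
    refine ⟨((y k (P 7) - y k (P 0)) - (y k' (P 7) - y k' (P 0))) / 2, ?_⟩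
    omega
  have hz : ∃ z : V 3 → ℤ, ∀ u, y k u - y k' u = (y k (P 0) - y k' (P 0)) + 2 * z u := by
    have : ∀ u, ∃ z : ℤ, y k u - y k' u = (y k (P 0) - y k' (P 0)) + 2 * z := by
      intro u
      obtain ⟨i, rfl⟩ := P_surj u
      fin_cases i
      · exact ⟨0, by simp⟩
      · exact ⟨z1, by simp only [Fin.mk_one]; linarith⟩
      · exact ⟨z2, by simp only [Fin.reduceFinMk]; linarith⟩
      · exact ⟨z3, by simp only [Fin.reduceFinMk]; linarith⟩
      · exact ⟨z4, by simp only [Fin.reduceFinMk]; linarith⟩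
      · exact ⟨z5, by simp only [Fin.reduceFinMk]; linarith⟩
      · exact ⟨z6, by simp only [Fin.reduceFinMk]; linarith⟩
      · exact ⟨z7, by simp only [Fin.reduceFinMk]; linarith⟩
    choose z hz using this
    exact ⟨z, hz⟩
  obtain ⟨z, hz⟩ := hz
  have hL : x k - x k' = (lap M₁) *ᵥ z := by
    funext u
    obtain ⟨i, rfl⟩ := P_surj u
    have f1 := congrFun (hy k) (P i)
    have f2 := congrFun (hy k') (P i)
    rw [lap₁] at f1 f2
    rw [lap₁]
    simp only [Pi.add_apply, Pi.sub_apply] at f1 f2 ⊢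
    have g0 := hz (P i)
    have g2 := hz (P (ad i 2))
    have g3 := hz (P (ad i 3))
    have g4 := hz (P (ad i 4))
    have g5 := hz (P (ad i 5))
    have g6 := hz (P (ad i 6))
    have g7 := hz (P (ad i 7))
    linarith
  apply Subtype.ext
  apply Subtype.ext
  rw [← hx k, ← hx k', Submodule.Quotient.eq]
  exact ⟨z, hL.symm⟩

/-- The sandpile group of `M₂` has at least `64` elements of order dividing two. -/
theorem lower : ∃ g : (Fin 6 → ZMod 2) → {k : K M₂ // k + k = 0}, Function.Injective g := by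
  let y : (Fin 6 → ZMod 2) → V 3 → ℤ := fun t u =>
    if u = P 1 then (t 0).val else if u = P 2 then (t 1).val else if u = P 3 then (t 2).val
    else if u = P 4 then (t 3).val else if u = P 5 then (t 4).val else if u = P 6 then (t 5).val
    else if u = P 7 then (t 0).val + (t 1).val + (t 2).val + (t 3).val + (t 4).val + (t 5).val
    else 0
  have y0 : ∀ t, y t (P 0) = 0 := fun t => by
    simp only [y]
    rw [if_neg (by decide), if_neg (by decide), if_neg (by decide), if_neg (by decide),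
      if_neg (by decide), if_neg (by decide), if_neg (by decide)]
  have y1 : ∀ t, y t (P 1) = (t 0).val := fun t => by simp only [y]; rw [if_pos trivial]
  have y2 : ∀ t, y t (P 2) = (t 1).val := fun t => by
    simp only [y]; rw [if_neg (by decide), if_pos trivial]
  have y3 : ∀ t, y t (P 3) = (t 2).val := fun t => by
    simp only [y]; rw [if_neg (by decide), if_neg (by decide), if_pos trivial]
  have y4 : ∀ t, y t (P 4) = (t 3).val := fun t => by
    simp only [y]; rw [if_neg (by decide), if_neg (by decide), if_neg (by decide), if_pos trivial]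
  have y5 : ∀ t, y t (P 5) = (t 4).val := fun t => by
    simp only [y]
    rw [if_neg (by decide), if_neg (by decide), if_neg (by decide), if_neg (by decide),
      if_pos trivial]
  have y6 : ∀ t, y t (P 6) = (t 5).val := fun t => by
    simp only [y]
    rw [if_neg (by decide), if_neg (by decide), if_neg (by decide), if_neg (by decide),
      if_neg (by decide), if_pos trivial]
  have y7 : ∀ t, y t (P 7) =
      (t 0).val + (t 1).val + (t 2).val + (t 3).val + (t 4).val + (t 5).val := fun t => by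
    simp only [y]
    rw [if_neg (by decide), if_neg (by decide), if_neg (by decide), if_neg (by decide),
      if_neg (by decide), if_neg (by decide), if_pos trivial]
  have hlap : ∀ (w : V 3 → ℤ) (i : Fin 8), ∃ e : ℤ, ((lap M₂) *ᵥ w) (P i) =
      2 * e + (w (P 0) + w (P 1) + w (P 2) + w (P 3) + w (P 4) + w (P 5) + w (P 6) + w (P 7)) := by
    intro w i
    have h := lap₂ w i
    rw [tab, tab, tab, tab, tab, tab, tab] at h
    refine ⟨(((lap M₂) *ᵥ w) (P i) - (w (P 0) + w (P 1) + w (P 2) + w (P 3) + w (P 4) + w (P 5)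
      + w (P 6) + w (P 7))) / 2, ?_⟩
    rw [h]
    fin_cases i <;> simp only [Fin.zero_eta, Fin.mk_one, Fin.reduceFinMk, Matrix.cons_val_zero,
      Matrix.cons_val_one, Matrix.cons_val] <;> omega
  have hex : ∀ t, ∃ x : V 3 → ℤ, (lap M₂) *ᵥ (y t) = x + x := by
    intro t
    have : ∀ u, ∃ e : ℤ, ((lap M₂) *ᵥ (y t)) u = e + e := by
      intro u
      obtain ⟨i, rfl⟩ := P_surj u
      obtain ⟨e, he⟩ := hlap (y t) i
      rw [y0, y1, y2, y3, y4, y5, y6, y7] at he
      exact ⟨e + ((t 0).val + (t 1).val + (t 2).val + (t 3).val + (t 4).val + (t 5).val), by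
        rw [he]; ring⟩
    choose x hx using this
    exact ⟨x, funext hx⟩
  choose x hx using hex
  have htors : ∀ t, (Submodule.Quotient.mk (x t) : Coker M₂) + Submodule.Quotient.mk (x t) = 0 := by
    intro t
    rw [← Submodule.Quotient.mk_add, Submodule.Quotient.mk_eq_zero]
    exact ⟨y t, hx t⟩
  refine ⟨fun t => ⟨⟨Submodule.Quotient.mk (x t), ?_⟩, ?_⟩, ?_⟩
  · rw [Submodule.mem_torsion_iff]
    refine ⟨⟨2, mem_nonZeroDivisors_of_ne_zero (by norm_num)⟩, ?_⟩
    change (2 : ℤ) • (Submodule.Quotient.mk (x t) : Coker M₂) = 0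
    rw [two_smul]
    exact htors t
  · apply Subtype.ext
    exact htors t
  · intro t t' h
    have h1 : (Submodule.Quotient.mk (x t) : Coker M₂) = Submodule.Quotient.mk (x t') :=
      congrArg (fun k => k.1.1) h
    rw [Submodule.Quotient.eq] at h1
    obtain ⟨z, hz⟩ := h1
    have hz' : (lap M₂) *ᵥ z = x t - x t' := hz
    -- the kernel of the Laplacian
    have hker : ∀ i : Fin 8, (lap M₂ *ᵥ (y t)) (P i) - (lap M₂ *ᵥ (y t')) (P i) =
        2 * (lap M₂ *ᵥ z) (P i) := by
      intro i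
      rw [hx t, hx t', hz']
      simp only [Pi.add_apply, Pi.sub_apply]
      ring
    have k0 := hker 0
    have k1 := hker 1
    have k2 := hker 2
    have k3 := hker 3
    have k4 := hker 4
    have k5 := hker 5
    have k6 := hker 6
    have k7 := hker 7
    rw [lap₂, lap₂, lap₂] at k0 k1 k2 k3 k4 k5 k6 k7
    simp only [tab, Matrix.cons_val_zero, Matrix.cons_val_one, Matrix.cons_val] at k0 k1 k2 k3 k4 k5 k6 k7
    rw [y0, y0, y1, y1, y2, y2, y3, y3, y4, y4, y5, y5, y6, y6, y7, y7] at k0 k1 k2 k3 k4 k5 k6 k7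
    have key : ∀ i : Fin 6, ∃ c : ℤ, ((t i).val : ℤ) - ((t' i).val : ℤ) = 2 * c := by
      intro i
      fin_cases i
      · exact ⟨z (P 1) - z (P 0), by simp only [Fin.zero_eta]; linarith⟩
      · exact ⟨z (P 2) - z (P 0), by simp only [Fin.mk_one]; linarith⟩
      · exact ⟨z (P 3) - z (P 0), by simp only [Fin.reduceFinMk]; linarith⟩
      · exact ⟨z (P 4) - z (P 0), by simp only [Fin.reduceFinMk]; linarith⟩
      · exact ⟨z (P 5) - z (P 0), by simp only [Fin.reduceFinMk]; linarith⟩
      · exact ⟨z (P 6) - z (P 0), by simp only [Fin.reduceFinMk]; linarith⟩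
    funext i
    obtain ⟨c, hc⟩ := key i
    have l1 : (t i).val < 2 := ZMod.val_lt _
    have l2 : (t' i).val < 2 := ZMod.val_lt _
    apply ZMod.val_injective
    omega

theorem gen_of_basis {M : Multiset (V 3)} (h0 : ∀ v ∈ M, v ≠ 0) (h : ∀ i : Fin 3,
    Pi.single i 1 ∈ Submodule.span (ZMod 2) {v | v ∈ M}) : IsGenerator M := by
  refine ⟨h0, ?_⟩
  rw [eq_top_iff]
  intro v _
  have : v = ∑ i, v i • (Pi.single i 1 : V 3) := by
    funext j
    simp [Finset.sum_apply, Pi.single_apply]
  rw [this]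
  exact Submodule.sum_mem _ fun i _ => Submodule.smul_mem _ _ (h i)

theorem gen₁ : IsGenerator M₁ := by
  refine gen_of_basis M₁_ne ?_
  have h2 : P 2 ∈ Submodule.span (ZMod 2) {v | v ∈ M₁} := Submodule.subset_span (by
    change P 2 ∈ M₁; decide)
  have h3 : P 3 ∈ Submodule.span (ZMod 2) {v | v ∈ M₁} := Submodule.subset_span (by
    change P 3 ∈ M₁; decide)
  have h4 : P 4 ∈ Submodule.span (ZMod 2) {v | v ∈ M₁} := Submodule.subset_span (by
    change P 4 ∈ M₁; decide)
  intro i
  fin_cases i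
  · have : (Pi.single 0 1 : V 3) = P 2 + P 3 := by decide
    simp only [Fin.zero_eta]
    rw [this]
    exact Submodule.add_mem _ h2 h3
  · have : (Pi.single 1 1 : V 3) = P 2 := by decide
    simp only [Fin.mk_one]
    rw [this]
    exact h2
  · have : (Pi.single 2 1 : V 3) = P 4 := by decide
    simp only [Fin.reduceFinMk]
    rw [this]
    exact h4

theorem gen₂ : IsGenerator M₂ := by
  refine gen_of_basis M₂_ne ?_
  intro i
  fin_cases i
  · exact Submodule.subset_span (by change (Pi.single 0 1 : V 3) ∈ M₂; decide)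
  · exact Submodule.subset_span (by change (Pi.single 1 1 : V 3) ∈ M₂; decide)
  · exact Submodule.subset_span (by change (Pi.single 2 1 : V 3) ∈ M₂; decide)

/-- There are generator multisets `M`, `M'` on `𝔽₂³` with gcd of multiplicities `1`, with equal
eigenvalue sets and even equal multisets of eigenvalues, whose sandpile groups are not
isomorphic. -/
theorem result : ∃ (r : ℕ) (M M' : Multiset (V r)), IsGenerator M ∧ IsGenerator M' ∧
    gcdMult M = 1 ∧ gcdMult M' = 1 ∧ Set.range (eig M) = Set.range (eig M') ∧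
    (Finset.univ.val.map (eig M) = Finset.univ.val.map (eig M')) ∧
    ¬ Nonempty (K M ≃+ K M') := by
  have hspec : (Finset.univ.val.map (eig M₁) = Finset.univ.val.map (eig M₂)) := by decide
  refine ⟨3, M₁, M₂, gen₁, gen₂, by decide, by decide, ?_, hspec, ?_⟩
  · ext k
    have h1 : ∀ M : Multiset (V 3), k ∈ Set.range (eig M) ↔ k ∈ Finset.univ.val.map (eig M) := by
      intro M
      simp
    rw [h1, h1, hspec]
  · rintro ⟨e⟩
    obtain ⟨f, hf⟩ := upper
    obtain ⟨g, hg⟩ := lower
    let F : (Fin 6 → ZMod 2) → (Fin 5 → ZMod 2) := fun t =>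
      f ⟨e.symm (g t).1, by rw [← map_add, (g t).2, map_zero]⟩
    have hF : Function.Injective F := by
      intro t t' h
      have h1 := congrArg Subtype.val (hf h)
      exact hg (Subtype.ext (e.symm.injective h1))
    have := Fintype.card_le_of_injective F hF
    simp at this

end Pool.Agent.Results.MP_f0ff61_co.SameSpectrum
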